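import Pool.Agent.H26.NO.Targets

/-!
# Rows C1 and C2: counting the solutions through their big and small parts
-/

set_option autoImplicit false

open Finset

namespace Pool.Agent.H37.NOK

open Pool.Agent.H26.NO

lemma two_pow_card (m : Multiset ℕ) (h : ∀ a ∈ m, 2 ≤ a) : 2 ^ (Multiset.card m) ≤ m.prod := by
  induction m using Multiset.induction_on with
  | empty => simp
  | cons a s ih =>
    rw [Multiset.card_cons, Multiset.prod_cons, pow_succ, mul_comm]
    exact Nat.mul_le_mul (h a (Multiset.mem_cons_self a s))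
      (ih (fun b hb => h b (Multiset.mem_cons_of_mem hb)))

lemma prod_pos' (m : Multiset ℕ) (h : ∀ a ∈ m, 2 ≤ a) : 0 < m.prod :=
  lt_of_lt_of_le (by positivity) (two_pow_card m h)

lemma card_le (m : Multiset ℕ) (N : ℕ) (h : ∀ a ∈ m, 2 ≤ a) (hN : m.prod ≤ N) :
    Multiset.card m ≤ N := by
  have h1 := two_pow_card m h
  have h2 : Multiset.card m < 2 ^ Multiset.card m := Nat.lt_two_pow_self
  omega

/-- The multisets of integers at least two with product at most `N`. -/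
lemma fin_ms (N : ℕ) : {m : Multiset ℕ | (∀ a ∈ m, 2 ≤ a) ∧ m.prod ≤ N}.Finite := by
  classical
  apply Set.Finite.subset ((Multiset.powerset (N • (range (N + 1)).val)).toFinset.finite_toSet)
  intro m hm
  simp only [Set.mem_ofPred_eq] at hm
  simp only [Finset.mem_coe, Multiset.mem_toFinset, Multiset.mem_powerset]
  rw [Multiset.le_iff_count]
  intro a
  by_cases ha : a ∈ m
  · have h1 : a ∣ m.prod := Multiset.dvd_prod ha
    have h2 : a ≤ N := le_trans (Nat.le_of_dvd (prod_pos' m hm.1) h1) hm.2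
    have h3 : Multiset.count a (N • (range (N + 1)).val) = N := by
      rw [Multiset.count_nsmul, Multiset.count_eq_one_of_mem (range (N + 1)).nodup
        (by simp; omega), mul_one]
    rw [h3]
    exact le_trans (Multiset.count_le_card a m) (card_le m N hm.1 hm.2)
  · rw [Multiset.count_eq_zero_of_notMem ha]
    exact Nat.zero_le _

/-- The finite set. -/
noncomputable def MS (N : ℕ) : Finset (Multiset ℕ) := (fin_ms N).toFinset

lemma mem_MS (N : ℕ) (m : Multiset ℕ) : m ∈ MS N ↔ (∀ a ∈ m, 2 ≤ a) ∧ m.prod ≤ N := by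
  rw [MS, Set.Finite.mem_toFinset, Set.mem_ofPred_eq]

open Classical in
/-- the big parts -/
noncomputable def mB (B : ℝ) (m : Multiset ℕ) : Multiset ℕ := m.filter (fun a : ℕ => B < (a : ℝ))

open Classical in
/-- the small parts -/
noncomputable def mS (B : ℝ) (m : Multiset ℕ) : Multiset ℕ := m.filter (fun a : ℕ => (a : ℝ) ≤ B)

lemma split (B : ℝ) (m : Multiset ℕ) : mS B m + mB B m = m := by
  classical
  have h := Multiset.filter_add_not (fun a : ℕ => (a : ℝ) ≤ B) m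
  unfold mS mB
  have h2 : Multiset.filter (fun a : ℕ => B < (a : ℝ)) m =
      Multiset.filter (fun a : ℕ => ¬ ((a : ℝ) ≤ B)) m := by
    apply Multiset.filter_congr
    intro a _
    exact not_le.symm
  rw [h2]
  exact h

lemma Tp_eq (B : ℝ) (m : Multiset ℕ) : Tp B m = (mS B m).prod := by
  unfold Tp mS
  rfl

lemma mem_mB (B : ℝ) (m : Multiset ℕ) (a : ℕ) : a ∈ mB B m ↔ a ∈ m ∧ B < (a : ℝ) := by
  classical
  unfold mB
  exact Multiset.mem_filter

lemma mem_mS (B : ℝ) (m : Multiset ℕ) (a : ℕ) : a ∈ mS B m ↔ a ∈ m ∧ (a : ℝ) ≤ B := by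
  classical
  unfold mS
  exact Multiset.mem_filter

/-- the reduced sum -/
def rs (m : Multiset ℕ) : ℕ := (m.map (fun a => a - 1)).sum

lemma rs_add (m n : Multiset ℕ) : rs (m + n) = rs m + rs n := by
  unfold rs
  rw [Multiset.map_add, Multiset.sum_add]

lemma rs_le (B : ℝ) (m : Multiset ℕ) (h : ∀ a ∈ m, (a : ℝ) ≤ B) (hB : 0 ≤ B) :
    (rs m : ℝ) ≤ B * Multiset.card m := by
  induction m using Multiset.induction_on with
  | empty => simp [rs]
  | cons a s ih =>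
    have h1 := ih (fun b hb => h b (Multiset.mem_cons_of_mem hb))
    have h2 := h a (Multiset.mem_cons_self a s)
    have h3 : rs (a ::ₘ s) = (a - 1) + rs s := by
      unfold rs
      rw [Multiset.map_cons, Multiset.sum_cons]
    rw [h3, Multiset.card_cons]
    have h4 : ((a - 1 : ℕ) : ℝ) ≤ a := by exact_mod_cast Nat.sub_le a 1
    push_cast
    linarith

/-- The count of pairs. -/
lemma pair_count (x P Q : ℝ) (F : Finset (Multiset ℕ)) {β : Type} (T : Finset β) (g : β → ℕ)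
    (G : Finset (Multiset ℕ × β)) (hx : 0 ≤ x) (hP : 0 ≤ P)
    (hF : ∑ m ∈ F, (1 : ℝ) / (m.prod : ℝ) ≤ P) (hT : ∑ t ∈ T, (1 : ℝ) / (g t : ℝ) ≤ Q)
    (hG : ∀ y ∈ G, y.1 ∈ F ∧ y.2 ∈ T ∧ 0 < y.1.prod ∧ 0 < g y.2 ∧
      ((y.1.prod * g y.2 : ℕ) : ℝ) ≤ 2 * x) :
    (G.card : ℝ) ≤ 2 * x * P * Q := by
  have hsub : G ⊆ F ×ˢ T := by
    intro y hy
    rw [mem_product]
    exact ⟨(hG y hy).1, (hG y hy).2.1⟩
  calc (G.card : ℝ) = ∑ y ∈ G, (1 : ℝ) := by simp
    _ ≤ ∑ y ∈ G, 2 * x * (1 / (y.1.prod : ℝ) * (1 / (g y.2 : ℝ))) := by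
        apply Finset.sum_le_sum
        intro y hy
        obtain ⟨-, -, h1, h2, h3⟩ := hG y hy
        have h1' : (0 : ℝ) < y.1.prod := by exact_mod_cast h1
        have h2' : (0 : ℝ) < g y.2 := by exact_mod_cast h2
        rw [Nat.cast_mul] at h3
        rw [one_div_mul_one_div, mul_one_div, le_div_iff₀ (by positivity), one_mul]
        exact h3
    _ ≤ ∑ y ∈ F ×ˢ T, 2 * x * (1 / (y.1.prod : ℝ) * (1 / (g y.2 : ℝ))) := by
        apply Finset.sum_le_sum_of_subset_of_nonneg hsub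
        intro y _ _
        positivity
    _ = 2 * x * ((∑ m ∈ F, (1 : ℝ) / (m.prod : ℝ)) * ∑ t ∈ T, (1 : ℝ) / (g t : ℝ)) := by
        rw [← Finset.mul_sum, Finset.sum_mul_sum, Finset.sum_product]
    _ ≤ 2 * x * (P * Q) := by
        have h1 : 0 ≤ ∑ t ∈ T, (1 : ℝ) / (g t : ℝ) :=
          Finset.sum_nonneg (fun t _ => by positivity)
        gcongr
    _ = 2 * x * P * Q := by ring

lemma Sl_prod (k : ℕ) (m : Multiset ℕ) (hm : m ∈ Sl k) (B : ℝ) :
    (mB B m).prod * Tp B m = k + (rs (mB B m) + rs (mS B m)) := by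
  have h1 : m.prod = k + rs m := hm.2
  have h2 : m.prod = (mS B m).prod * (mB B m).prod := by
    rw [← Multiset.prod_add, split]
  have h3 : rs m = rs (mS B m) + rs (mB B m) := by
    rw [← rs_add, split]
  rw [Tp_eq, mul_comm, ← h2, h1, h3, add_comm (rs (mS B m))]

/-- The facts about one solution. -/
lemma facts (hSR : T_SR) (x B : ℝ) (hx : 1 ≤ x) (hB : 1 ≤ B) (k : ℕ) (hk2 : 2 ≤ k)
    (hk : k ≤ ⌊x⌋₊) (m : Multiset ℕ) (hm : m ∈ Sl k) :
    (∀ a ∈ mB B m, 2 ≤ a) ∧ (∀ a ∈ mS B m, 2 ≤ a) ∧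
    (mB B m).prod * (mS B m).prod ≤ ⌊2 * x⌋₊ ∧ (mB B m).prod ≤ ⌊2 * x⌋₊ ∧
    (mS B m).prod ≤ ⌊2 * x⌋₊ ∧ 0 < (mB B m).prod ∧ 0 < (mS B m).prod ∧
    (rs (mS B m) : ℝ) ≤ B * (Nat.log 2 ⌊2 * x⌋₊ : ℝ) := by
  have h2 : ∀ a ∈ m, 2 ≤ a := hm.1
  have hb2 : ∀ a ∈ mB B m, 2 ≤ a := fun a ha => h2 a ((mem_mB B m a).1 ha).1
  have hs2 : ∀ a ∈ mS B m, 2 ≤ a := fun a ha => h2 a ((mem_mS B m a).1 ha).1
  have hbp := prod_pos' _ hb2
  have hsp := prod_pos' _ hs2
  have h3 : (mB B m).prod * (mS B m).prod = m.prod := by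
    rw [mul_comm, ← Multiset.prod_add, split]
  have h4 : m.prod ≤ ⌊2 * x⌋₊ := by
    have h5 := (hSR k hk2).2.2 m hm
    apply Nat.le_floor
    have h6 : (k : ℝ) ≤ x := le_trans (by exact_mod_cast hk) (Nat.floor_le (by linarith))
    have h7 : (m.prod : ℝ) ≤ 2 * k := by exact_mod_cast h5
    linarith
  have h5 : (mB B m).prod * (mS B m).prod ≤ ⌊2 * x⌋₊ := by rw [h3]; exact h4
  have h6 : (mS B m).prod ≤ ⌊2 * x⌋₊ := le_trans (Nat.le_mul_of_pos_left _ hbp) h5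
  refine ⟨hb2, hs2, h5, le_trans (Nat.le_mul_of_pos_right _ hsp) h5, h6, hbp, hsp, ?_⟩
  have h7 := rs_le B (mS B m) (fun a ha => ((mem_mS B m a).1 ha).2) (by linarith)
  have h8 : Multiset.card (mS B m) ≤ Nat.log 2 ⌊2 * x⌋₊ :=
    Nat.le_log_of_pow_le (by norm_num) (le_trans (two_pow_card _ hs2) h6)
  have h9 : (Multiset.card (mS B m) : ℝ) ≤ (Nat.log 2 ⌊2 * x⌋₊ : ℝ) := by exact_mod_cast h8
  refine le_trans h7 ?_
  gcongr

/-- Row C1. -/
theorem pf_C1 (hSR : T_SR) : T_C1 := by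
  classical
  intro x B W U w n hx hB hW0 hU0 hW hU
  set N : ℕ := ⌊2 * x⌋₊ with hN
  set FB : Finset (Multiset ℕ) := (MS N).filter (fun m => ∀ a ∈ m, B < (a : ℝ)) with hFB
  set TT : Finset ℕ := (Icc 1 N).filter (fun T => n ≤ Om w T) with hTT
  set R : ℕ := ⌊B * (Nat.log 2 N : ℝ)⌋₊ + 1 with hR
  set G : Finset (Multiset ℕ × ℕ) := (FB ×ˢ TT).filter (fun y => y.1.prod * y.2 ≤ N) with hG
  set KK : Finset ℕ := (Icc 2 ⌊x⌋₊).filter (fun k => ∃ m ∈ Sl k, n ≤ Om w (Tp B m)) with hKK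
  have hex : ∀ k : ℕ, ∃ m : Multiset ℕ, k ∈ KK → m ∈ Sl k ∧ n ≤ Om w (Tp B m) := by
    intro k
    by_cases hk : k ∈ KK
    · have hk' := hk
      rw [hKK, mem_filter] at hk'
      obtain ⟨m, hm, hn⟩ := hk'.2
      exact ⟨m, fun _ => ⟨hm, hn⟩⟩
    · exact ⟨0, fun h => absurd h hk⟩
  choose f hf using hex
  have h2x : (N : ℝ) ≤ 2 * x := Nat.floor_le (by linarith)
  have hcard : KK.card ≤ (G ×ˢ range R).card := by
    apply Finset.card_le_card_of_injOn
      (fun k => ((mB B (f k), Tp B (f k)), rs (mS B (f k))))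
    · intro k hk
      have hk0 : k ∈ KK := hk
      obtain ⟨h1, h2⟩ := hf k hk0
      rw [hKK, mem_filter, mem_Icc] at hk0
      obtain ⟨g1, g2, g3, g4, g5, g6, g7, g8⟩ :=
        facts hSR x B hx hB k hk0.1.1 hk0.1.2 (f k) h1
      simp only [coe_product, Set.mem_prod, Finset.mem_coe]
      refine ⟨?_, ?_⟩
      · rw [hG, mem_filter, mem_product, hFB, mem_filter, mem_MS, hTT, mem_filter, mem_Icc]
        simp only
        refine ⟨⟨⟨⟨g1, g4⟩, fun a ha => ((mem_mB B _ a).1 ha).2⟩, ⟨?_, ?_⟩, h2⟩, ?_⟩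
        · rw [Tp_eq]
          exact g7
        · rw [Tp_eq]
          exact g5
        · rw [Tp_eq]
          exact g3
      · rw [mem_range, hR]
        rw [← hN] at g8
        have := Nat.le_floor g8
        omega
    · intro k hk l hl hkl
      simp only [Prod.mk.injEq] at hkl
      obtain ⟨⟨e1, e2⟩, e3⟩ := hkl
      have a1 := Sl_prod k (f k) (hf k hk).1 B
      have a2 := Sl_prod l (f l) (hf l hl).1 B
      rw [e1, e2, e3] at a1
      omega
  have hGc : (G.card : ℝ) ≤ 2 * x * W * U := by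
    apply pair_count x W U FB TT (fun t => t) G (by linarith) hW0
    · apply hW
      intro m hm
      rw [hFB, mem_filter, mem_MS] at hm
      refine ⟨hm.2, le_trans ?_ h2x⟩
      exact_mod_cast hm.1.2
    · exact hU
    · intro y hy
      rw [hG, mem_filter, mem_product, hFB, mem_filter, mem_MS, hTT, mem_filter, mem_Icc] at hy
      refine ⟨?_, ?_, prod_pos' _ hy.1.1.1.1, hy.1.2.1.1, le_trans ?_ h2x⟩
      · rw [hFB, mem_filter, mem_MS]
        exact hy.1.1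
      · rw [hTT, mem_filter, mem_Icc]
        exact hy.1.2
      · exact_mod_cast hy.2
  have hR' : (R : ℝ) ≤ B * (Nat.log 2 N : ℝ) + 1 := by
    rw [hR]
    push_cast
    have := Nat.floor_le (show 0 ≤ B * (Nat.log 2 N : ℝ) by positivity)
    linarith
  calc (KK.card : ℝ) ≤ ((G ×ˢ range R).card : ℝ) := by exact_mod_cast hcard
    _ = (G.card : ℝ) * R := by
        rw [card_product, card_range]
        push_cast
        rfl
    _ ≤ (2 * x * W * U) * (B * (Nat.log 2 N : ℝ) + 1) := by gcongr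

/-- Row C2. -/
theorem pf_C2 (hSR : T_SR) : T_C2 := by
  classical
  intro x B W V w n hx hB hW0 hV0 hW hV
  set N : ℕ := ⌊2 * x⌋₊ with hN
  have h2x : (N : ℝ) ≤ 2 * x := Nat.floor_le (by linarith)
  set FB : Finset (Multiset ℕ) := (MS N).filter (fun m => ∀ a ∈ m, B < (a : ℝ)) with hFB
  set FS : Finset (Multiset ℕ) := (MS N).filter
    (fun m => (∀ a ∈ m, 2 ≤ a ∧ (a : ℝ) ≤ B) ∧ Om w m.prod ≤ n) with hFS
  set G : Finset (Multiset ℕ × Multiset ℕ) :=
    (FB ×ˢ FS).filter (fun y => y.1.prod * y.2.prod ≤ N) with hG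
  have hfin : ∀ k : ℕ, 2 ≤ k → {m : Multiset ℕ | m ∈ Sl k ∧ Om w (Tp B m) ≤ n}.Finite :=
    fun k hk => (hSR k hk).1.subset (fun m hm => hm.1)
  set D : ℕ → Finset (Multiset ℕ) := fun k =>
    if h : {m : Multiset ℕ | m ∈ Sl k ∧ Om w (Tp B m) ≤ n}.Finite then h.toFinset else ∅ with hD
  have hDm : ∀ k : ℕ, 2 ≤ k → ∀ m, m ∈ D k ↔ m ∈ Sl k ∧ Om w (Tp B m) ≤ n := by
    intro k hk m
    rw [hD]
    simp only [hfin k hk, dif_pos, Set.Finite.mem_toFinset, Set.mem_ofPred_eq]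
  have hDc : ∀ k : ℕ, 2 ≤ k → {m : Multiset ℕ | m ∈ Sl k ∧ Om w (Tp B m) ≤ n}.ncard =
      (D k).card := by
    intro k hk
    rw [Set.ncard_eq_toFinset_card _ (hfin k hk)]
    congr 1
    rw [hD]
    simp only [hfin k hk, dif_pos]
  have hsum : ∑ k ∈ Icc 2 ⌊x⌋₊, {m : Multiset ℕ | m ∈ Sl k ∧ Om w (Tp B m) ≤ n}.ncard =
      ((Icc 2 ⌊x⌋₊).sigma D).card := by
    rw [card_sigma]
    apply Finset.sum_congr rfl
    intro k hk
    rw [mem_Icc] at hk
    exact hDc k hk.1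
  have hcard : ((Icc 2 ⌊x⌋₊).sigma D).card ≤ G.card := by
    apply Finset.card_le_card_of_injOn (fun y => (mB B y.2, mS B y.2))
    · intro y hy
      have hy0 : y ∈ (Icc 2 ⌊x⌋₊).sigma D := hy
      rw [mem_sigma, mem_Icc] at hy0
      obtain ⟨⟨k2, kx⟩, hym⟩ := hy0
      rw [hDm _ k2] at hym
      obtain ⟨g1, g2, g3, g4, g5, g6, g7, g8⟩ :=
        facts hSR x B hx hB y.1 k2 kx y.2 hym.1
      simp only [Finset.mem_coe]
      rw [hG, mem_filter, mem_product, hFB, mem_filter, mem_MS, hFS, mem_filter, mem_MS]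
      simp only
      refine ⟨⟨⟨⟨g1, g4⟩, fun a ha => ((mem_mB B _ a).1 ha).2⟩, ⟨g2, g5⟩,
        fun a ha => ⟨g2 a ha, ((mem_mS B _ a).1 ha).2⟩, ?_⟩, g3⟩
      rw [← Tp_eq]
      exact hym.2
    · intro y hy y' hy' hyy
      have hy0 : y ∈ (Icc 2 ⌊x⌋₊).sigma D := hy
      have hy1 : y' ∈ (Icc 2 ⌊x⌋₊).sigma D := hy'
      rw [mem_sigma, mem_Icc] at hy0 hy1
      have m0 := ((hDm _ hy0.1.1 _).1 hy0.2).1
      have m1 := ((hDm _ hy1.1.1 _).1 hy1.2).1
      simp only [Prod.mk.injEq] at hyy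
      have hm : y.2 = y'.2 := by
        rw [← split B y.2, ← split B y'.2, hyy.1, hyy.2]
      have hk : y.1 = y'.1 := by
        have e1 : y.2.prod = y.1 + (y.2.map (fun a => a - 1)).sum := m0.2
        have e2 : y'.2.prod = y'.1 + (y'.2.map (fun a => a - 1)).sum := m1.2
        rw [hm] at e1
        omega
      obtain ⟨k, m⟩ := y
      obtain ⟨k', m'⟩ := y'
      simp only at hm hk
      rw [hm, hk]
  have hGc : (G.card : ℝ) ≤ 2 * x * W * V := by
    apply pair_count x W V FB FS (fun t => t.prod) G (by linarith) hW0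
    · apply hW
      intro m hm
      rw [hFB, mem_filter, mem_MS] at hm
      refine ⟨hm.2, le_trans ?_ h2x⟩
      exact_mod_cast hm.1.2
    · apply hV
      intro m hm
      rw [hFS, mem_filter, mem_MS] at hm
      exact hm.2
    · intro y hy
      rw [hG, mem_filter, mem_product, hFB, mem_filter, mem_MS, hFS, mem_filter, mem_MS] at hy
      refine ⟨?_, ?_, prod_pos' _ hy.1.1.1.1, prod_pos' _ hy.1.2.1.1, le_trans ?_ h2x⟩
      · rw [hFB, mem_filter, mem_MS]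
        exact hy.1.1
      · rw [hFS, mem_filter, mem_MS]
        exact hy.1.2
      · exact_mod_cast hy.2
  calc ∑ k ∈ Icc 2 ⌊x⌋₊, (({m : Multiset ℕ | m ∈ Sl k ∧ Om w (Tp B m) ≤ n}.ncard : ℕ) : ℝ) =
        ((∑ k ∈ Icc 2 ⌊x⌋₊, {m : Multiset ℕ | m ∈ Sl k ∧ Om w (Tp B m) ≤ n}.ncard : ℕ) : ℝ) := by
        push_cast
        rfl
    _ ≤ (G.card : ℝ) := by
        rw [hsum]
        exact_mod_cast hcard
    _ ≤ 2 * x * W * V := hGc

end Pool.Agent.H37.NOK
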