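import Pool.Agent.H26.NO.Targets

/-!
# Row DD: the correlations of the index set
-/

set_option autoImplicit false

open Finset

namespace Pool.Agent.H37.NOK

open Pool.Agent.H26.NO

lemma sum_IX {r : ℕ} (A : Fin r → Finset ℕ) (Y : ℕ) (z : ℝ) (F : (Fin r → ℕ) × ℕ → ℝ) :
    ∑ y ∈ IX A Y z, F y =
      ∑ a ∈ Fintype.piFinset A, ∑ b ∈ Bs Y z (Qf a), F (a, b) := by
  classical
  unfold IX
  rw [Finset.sum_filter, Finset.sum_product]
  apply Finset.sum_congr rfl
  intro a _
  rw [← Finset.sum_filter]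
  apply Finset.sum_congr
  · ext b
    rw [mem_filter]
    constructor
    · rintro ⟨-, h⟩
      exact h
    · intro h
      refine ⟨?_, h⟩
      unfold Bs at h
      rw [mem_filter] at h
      exact h.1
  · intro b _
    rfl

lemma Qf_pos {r : ℕ} (A : Fin r → Finset ℕ) (hA : ∀ i, ∀ a ∈ A i, 2 ≤ a) (a : Fin r → ℕ)
    (ha : a ∈ Fintype.piFinset A) : 1 ≤ Qf a := by
  unfold Qf
  apply Nat.one_le_iff_ne_zero.2
  rw [Finset.prod_ne_zero_iff]
  intro i _
  have := hA i (a i) (Fintype.mem_piFinset.1 ha i)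
  omega

lemma Sg_ge {r : ℕ} (A : Fin r → Finset ℕ) (hA : ∀ i, ∀ a ∈ A i, 2 ≤ a) (a : Fin r → ℕ)
    (ha : a ∈ Fintype.piFinset A) : r ≤ Sg a := by
  unfold Sg
  calc r = ∑ _i : Fin r, 1 := by simp
    _ ≤ ∑ i, a i := by
        apply Finset.sum_le_sum
        intro i _
        have := hA i (a i) (Fintype.mem_piFinset.1 ha i)
        omega

lemma mem_Bs (Y : ℕ) (z : ℝ) (Q b : ℕ) (h : b ∈ Bs Y z Q) : Y < b := by
  classical
  unfold Bs at h
  rw [mem_filter, mem_Ioc] at h
  exact h.1.1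

/-- the term of the correlation sum -/
noncomputable def tm (Q Q' b b' : ℕ) : ℝ :=
  (((b * Q - 1).gcd (b' * Q' - 1) : ℕ) : ℝ) / (((b * Q - 1 : ℕ) : ℝ) * ((b' * Q' - 1 : ℕ) : ℝ))

lemma tm_nonneg (Q Q' b b' : ℕ) : 0 ≤ tm Q Q' b b' := by
  unfold tm
  positivity

/-- Row DD. -/
theorem pf_DD (hDN : T_DN) (hDZ : T_DZ) : T_DD := by
  classical
  intro r A Y z hr hY hz hz0 hA K K' hK hKY
  have hYr : (1 : ℝ) ≤ Y := by exact_mod_cast hY
  have hlog : 0 ≤ Real.log Y := Real.log_nonneg hYr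
  set P := Fintype.piFinset A with hP
  -- the inner sums
  set W : (Fin r → ℕ) → (Fin r → ℕ) → ℝ := fun a a' =>
    ∑ b ∈ Bs Y z (Qf a), ∑ b' ∈ (Bs Y z (Qf a')).filter (fun b' =>
      1 < (b * Qf a - 1).gcd (b' * Qf a' - 1) ∧
      (((b * Qf a - 1).gcd (b' * Qf a' - 1) : ℕ) : ℤ) ∣ ((b : ℤ) + Sg a) - ((b' : ℤ) + Sg a')),
        tm (Qf a) (Qf a') b b' with hW
  have hDl : Dl (IX A Y z) qb eb = ∑ a ∈ P, ∑ a' ∈ P, W a a' := by
    unfold Dl
    rw [sum_IX]
    apply Finset.sum_congr rfl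
    intro a ha
    rw [hW]
    simp only
    rw [Finset.sum_comm]
    apply Finset.sum_congr rfl
    intro b hb
    rw [Finset.sum_filter, sum_IX]
    apply Finset.sum_congr rfl
    intro a' ha'
    rw [Finset.sum_filter]
    apply Finset.sum_congr rfl
    intro b' hb'
    have e1 : qb (a, b) = b * Qf a - 1 := rfl
    have e2 : qb (a', b') = b' * Qf a' - 1 := rfl
    have e3 : ((eb (a, b) : ℕ) : ℤ) = (b : ℤ) + Sg a - (r + 2) := by
      have h1 := Sg_ge A hA a ha
      have h2 := mem_Bs Y z _ b hb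
      have h3 : eb (a, b) = b + Sg a - (r + 2) := rfl
      rw [h3, Nat.cast_sub (by omega)]
      push_cast
      ring
    have e4 : ((eb (a', b') : ℕ) : ℤ) = (b' : ℤ) + Sg a' - (r + 2) := by
      have h1 := Sg_ge A hA a' ha'
      have h2 := mem_Bs Y z _ b' hb'
      have h3 : eb (a', b') = b' + Sg a' - (r + 2) := rfl
      rw [h3, Nat.cast_sub (by omega)]
      push_cast
      ring
    have e5 : ((eb (a, b) : ℕ) : ℤ) - ((eb (a', b') : ℕ) : ℤ) =
        ((b : ℤ) + Sg a) - ((b' : ℤ) + Sg a') := by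
      rw [e3, e4]
      ring
    rw [e5, e1, e2]
    rfl
  -- the two cases
  have hcase : ∀ a ∈ P, ∀ a' ∈ P, W a a' ≤
      12 * Real.log Y / z * (1 / (Qf a : ℝ) * (1 / (Qf a' : ℝ))) +
        (3 + 2 * Real.log Y) * (if Qf a' = Qf a ∧ Sg a' = Sg a then 1 / (Qf a : ℝ) else 0) := by
    intro a ha a' ha'
    have hQ := Qf_pos A hA a ha
    have hQ' := Qf_pos A hA a' ha'
    have hQr : (0 : ℝ) < Qf a := by exact_mod_cast hQ
    have hQr' : (0 : ℝ) < Qf a' := by exact_mod_cast hQ'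
    by_cases h : Qf a' = Qf a ∧ Sg a' = Sg a
    · simp only [h, and_self, if_true]
      have h1 := hDZ Y (Qf a) z hY hQ
      have h2 : W a a' ≤ (3 + 2 * Real.log Y) / (Qf a : ℝ) := by
        refine le_trans ?_ h1
        rw [hW]
        simp only
        apply Finset.sum_le_sum
        intro b _
        rw [h.1]
        exact Finset.sum_le_sum_of_subset_of_nonneg (filter_subset _ _)
          (fun b' _ _ => tm_nonneg _ _ _ _)
      have h3 : (3 + 2 * Real.log Y) / (Qf a : ℝ) = (3 + 2 * Real.log Y) * (1 / (Qf a : ℝ)) := by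
        ring
      have h4 : 0 ≤ 12 * Real.log Y / z * (1 / (Qf a : ℝ) * (1 / (Qf a : ℝ))) := by positivity
      linarith
    · simp only [h, if_false, mul_zero, add_zero]
      have hne : ((Qf a' : ℕ) : ℤ) - (Qf a : ℕ) +
          (((Sg a : ℕ) : ℤ) - (Sg a' : ℕ)) * ((Qf a : ℕ) * (Qf a' : ℕ)) ≠ 0 := by
        intro h0
        have q1 : (1 : ℤ) ≤ (Qf a : ℕ) := by exact_mod_cast hQ
        have q2 : (1 : ℤ) ≤ (Qf a' : ℕ) := by exact_mod_cast hQ'
        have hS : ((Sg a : ℕ) : ℤ) = (Sg a' : ℕ) := by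
          by_contra hne
          rcases lt_or_gt_of_ne hne with hlt | hgt
          · have h5 : ((Sg a : ℕ) : ℤ) - (Sg a' : ℕ) ≤ -1 := by linarith [Int.add_one_le_iff.2 hlt]
            nlinarith [mul_le_mul_of_nonneg_right h5
              (show (0 : ℤ) ≤ (Qf a : ℕ) * (Qf a' : ℕ) by positivity),
              mul_le_mul_of_nonneg_right q1 (show (0 : ℤ) ≤ (Qf a' : ℕ) by positivity)]
          · have h5 : (1 : ℤ) ≤ ((Sg a : ℕ) : ℤ) - (Sg a' : ℕ) := by
              linarith [Int.add_one_le_iff.2 hgt]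
            nlinarith [mul_le_mul_of_nonneg_right h5
              (show (0 : ℤ) ≤ (Qf a : ℕ) * (Qf a' : ℕ) by positivity),
              mul_le_mul_of_nonneg_left q2 (show (0 : ℤ) ≤ (Qf a : ℕ) by positivity)]
        rw [hS, sub_self, zero_mul, add_zero, sub_eq_zero] at h0
        exact h ⟨by exact_mod_cast h0, by exact_mod_cast hS.symm⟩
      have hle : |((Qf a' : ℕ) : ℤ) - (Qf a : ℕ) +
          (((Sg a : ℕ) : ℤ) - (Sg a' : ℕ)) * ((Qf a : ℕ) * (Qf a' : ℕ))| ≤ Y := by
        obtain ⟨k1, k2⟩ := hK a ha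
        obtain ⟨k3, k4⟩ := hK a' ha'
        have s1 : (0 : ℝ) ≤ Sg a := by positivity
        have s2 : (0 : ℝ) ≤ Sg a' := by positivity
        have hK0 : 0 ≤ K := by linarith
        have hK0' : 0 ≤ K' := by linarith
        have h6 : |((Qf a' : ℕ) : ℝ) - (Qf a : ℕ) +
            (((Sg a : ℕ) : ℝ) - (Sg a' : ℕ)) * ((Qf a : ℕ) * (Qf a' : ℕ))| ≤ Y := by
          calc |((Qf a' : ℕ) : ℝ) - (Qf a : ℕ) +
                (((Sg a : ℕ) : ℝ) - (Sg a' : ℕ)) * ((Qf a : ℕ) * (Qf a' : ℕ))|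
              ≤ |((Qf a' : ℕ) : ℝ) - (Qf a : ℕ)| +
                |(((Sg a : ℕ) : ℝ) - (Sg a' : ℕ)) * ((Qf a : ℕ) * (Qf a' : ℕ))| := abs_add_le _ _
            _ ≤ K + K' * K ^ 2 := by
                have e1 : |((Qf a' : ℕ) : ℝ) - (Qf a : ℕ)| ≤ K := by
                  rw [abs_le]
                  constructor <;> linarith
                have e2 : |((Sg a : ℕ) : ℝ) - (Sg a' : ℕ)| ≤ K' := by
                  rw [abs_le]
                  constructor <;> linarith
                have e3 : |(((Sg a : ℕ) : ℝ) - (Sg a' : ℕ)) * ((Qf a : ℕ) * (Qf a' : ℕ))| ≤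
                    K' * K ^ 2 := by
                  rw [abs_mul, abs_of_nonneg (show (0 : ℝ) ≤ (Qf a : ℕ) * (Qf a' : ℕ) by positivity),
                    pow_two]
                  gcongr
                linarith
            _ ≤ Y := hKY
        exact_mod_cast h6
      have h7 := hDN Y (Qf a) (Qf a') (Sg a) (Sg a') z hY hQ hQ' hz hz0 hne hle
      have h8 : 12 * Real.log Y / (z * ((Qf a : ℝ) * (Qf a' : ℝ))) =
          12 * Real.log Y / z * (1 / (Qf a : ℝ) * (1 / (Qf a' : ℝ))) := by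
        field_simp
      rw [← h8]
      exact h7
  rw [hDl]
  calc ∑ a ∈ P, ∑ a' ∈ P, W a a'
      ≤ ∑ a ∈ P, ∑ a' ∈ P, (12 * Real.log Y / z * (1 / (Qf a : ℝ) * (1 / (Qf a' : ℝ))) +
        (3 + 2 * Real.log Y) *
          (if Qf a' = Qf a ∧ Sg a' = Sg a then 1 / (Qf a : ℝ) else 0)) := by
        apply Finset.sum_le_sum
        intro a ha
        apply Finset.sum_le_sum
        intro a' ha'
        exact hcase a ha a' ha'
    _ = 12 * Real.log Y / z * mq A ^ 2 + (3 + 2 * Real.log Y) *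
          ∑ a ∈ P, ∑ a' ∈ P, (if Qf a' = Qf a ∧ Sg a' = Sg a then 1 / (Qf a : ℝ) else 0) := by
        simp only [Finset.sum_add_distrib, ← Finset.mul_sum]
        congr 2
        unfold mq
        rw [pow_two, Finset.sum_mul]
    _ ≤ 12 * Real.log Y / z * mq A ^ 2 + (3 + 2 * Real.log Y) * (mq A + co A) := by
        have h9 : ∑ a ∈ P, ∑ a' ∈ P, (if Qf a' = Qf a ∧ Sg a' = Sg a then 1 / (Qf a : ℝ) else 0) ≤
            mq A + co A := by
          unfold mq co
          rw [← Finset.sum_add_distrib]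
          apply Finset.sum_le_sum
          intro a ha
          rw [← Finset.sum_filter]
          have h10 : P.filter (fun a' => Qf a' = Qf a ∧ Sg a' = Sg a) ⊆
              {a} ∪ P.filter (fun a' => a' ≠ a ∧ Qf a' = Qf a ∧ Sg a' = Sg a) := by
            intro a' ha'
            rw [mem_filter] at ha'
            rw [mem_union, mem_singleton, mem_filter]
            by_cases he : a' = a
            · exact Or.inl he
            · exact Or.inr ⟨ha'.1, he, ha'.2⟩
          calc ∑ _a' ∈ P.filter (fun a' => Qf a' = Qf a ∧ Sg a' = Sg a), 1 / (Qf a : ℝ)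
              ≤ ∑ _a' ∈ {a} ∪ P.filter (fun a' => a' ≠ a ∧ Qf a' = Qf a ∧ Sg a' = Sg a),
                  1 / (Qf a : ℝ) := by
                apply Finset.sum_le_sum_of_subset_of_nonneg h10
                intro _ _ _
                positivity
            _ ≤ ∑ _a' ∈ {a}, 1 / (Qf a : ℝ) +
                  ∑ _a' ∈ P.filter (fun a' => a' ≠ a ∧ Qf a' = Qf a ∧ Sg a' = Sg a),
                    1 / (Qf a : ℝ) := by
                rw [← Finset.sum_union_inter]
                have : 0 ≤ ∑ _a' ∈ {a} ∩ P.filter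
                    (fun a' => a' ≠ a ∧ Qf a' = Qf a ∧ Sg a' = Sg a), 1 / (Qf a : ℝ) :=
                  Finset.sum_nonneg (fun _ _ => by positivity)
                linarith
            _ = _ := by
                rw [Finset.sum_singleton]
        have h11 : 0 ≤ 3 + 2 * Real.log Y := by positivity
        gcongr

end Pool.Agent.H37.NOK
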