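import Pool.Agent.H26.NO.Targets

/-!
# Row EP: the Euler product, upper bound
-/

set_option autoImplicit false

open Finset

namespace Pool.Agent.H37.NOK

open Pool.Agent.H26.NO

lemma Om_mul (w m n : ℕ) (hm : m ≠ 0) (hn : n ≠ 0) : Om w (m * n) = Om w m + Om w n := by
  unfold Om
  rw [(Nat.perm_primeFactorsList_mul hm hn).countP_eq, List.countP_append]

lemma Om_one (w : ℕ) : Om w 1 = 0 := by
  unfold Om
  simp

lemma Om_prime (w p : ℕ) (hp : p.Prime) : Om w p = if w < p then 1 else 0 := by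
  unfold Om
  rw [Nat.primeFactorsList_prime hp]
  by_cases h : w < p
  · simp [h]
  · simp [h]

/-- The completely multiplicative function. -/
noncomputable def ff (w : ℕ) (u : ℝ) : ℕ →* ℝ where
  toFun n := u ^ Om w n / (n : ℝ)
  map_one' := by simp [Om_one]
  map_mul' m n := by
    rcases eq_or_ne m 0 with hm | hm
    · simp [hm]
    · rcases eq_or_ne n 0 with hn | hn
      · simp [hn]
      · rw [Om_mul w m n hm hn, pow_add, Nat.cast_mul]
        ring

lemma ff_apply (w : ℕ) (u : ℝ) (n : ℕ) : ff w u n = u ^ Om w n / (n : ℝ) := rfl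

lemma inv_le_exp (t : ℝ) (h0 : 0 ≤ t) (h1 : t ≤ 1 / 2) : (1 - t)⁻¹ ≤ Real.exp (t + t ^ 2) := by
  have h2 := Real.quadratic_le_exp_of_nonneg (show 0 ≤ t + t ^ 2 by positivity)
  have h3 : 0 < 1 - t := by linarith
  rw [inv_le_iff_one_le_mul₀ h3]
  refine le_trans ?_ (mul_le_mul_of_nonneg_right h2 h3.le)
  nlinarith [mul_nonneg h0 h0, mul_nonneg (mul_nonneg h0 h0) h0,
    mul_nonneg (mul_nonneg (mul_nonneg h0 h0) (show 0 ≤ 1 / 2 - t by linarith))
      (show 0 ≤ 1 + t by linarith),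
    mul_nonneg (mul_nonneg h0 h0) (show 0 ≤ 1 / 2 - t by linarith)]

lemma tail_sq (a n : ℕ) (ha : 0 < a) : ∑ b ∈ Ioc a n, 1 / (b : ℝ) ^ 2 ≤ 1 / (a : ℝ) := by
  rcases le_or_gt a n with h | h
  · have key : ∀ n : ℕ, a ≤ n → ∑ b ∈ Ioc a n, 1 / (b : ℝ) ^ 2 ≤ 1 / (a : ℝ) - 1 / (n : ℝ) := by
      intro n hn
      induction n, hn using Nat.le_induction with
      | base => simp
      | succ n hn ih =>
        rw [Finset.sum_Ioc_succ_top hn]
        have hn0 : (0 : ℝ) < n := by exact_mod_cast (lt_of_lt_of_le ha hn)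
        have h1 : 1 / (((n + 1 : ℕ) : ℝ)) ^ 2 ≤ 1 / (n : ℝ) - 1 / ((n + 1 : ℕ) : ℝ) := by
          push_cast
          rw [div_sub_div _ _ hn0.ne' (by positivity),
            div_le_div_iff₀ (by positivity) (by positivity)]
          nlinarith
        linarith
    have := key n h
    have h2 : (0 : ℝ) ≤ 1 / (n : ℝ) := by positivity
    linarith
  · rw [Finset.Ioc_eq_empty_of_le h.le]
    simp

/-- Row EP. -/
theorem pf_EP : T_EP := by
  classical
  intro N w u hw hwN hu0 hu
  have hwr : (2 : ℝ) ≤ w := by exact_mod_cast hw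
  have hfp : ∀ p : ℕ, p.Prime → 0 ≤ ff w u p ∧ ff w u p ≤ 1 / 2 := by
    intro p hp
    have hp2 : (2 : ℝ) ≤ p := by exact_mod_cast hp.two_le
    rw [ff_apply, Om_prime w p hp]
    by_cases h : w < p
    · have hwp : (w : ℝ) < p := by exact_mod_cast h
      simp only [h, if_true, pow_one]
      refine ⟨by positivity, ?_⟩
      rw [div_le_div_iff₀ (by linarith) (by norm_num)]
      linarith
    · simp only [h, if_false, pow_zero]
      refine ⟨by positivity, ?_⟩
      rw [div_le_div_iff₀ (by linarith) (by norm_num)]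
      linarith
  have hnorm : ∀ {p : ℕ}, p.Prime → ‖ff w u p‖ < 1 := by
    intro p hp
    obtain ⟨h1, h2⟩ := hfp p hp
    rw [Real.norm_eq_abs, abs_of_nonneg h1]
    linarith
  have hE := (EulerProduct.summable_and_hasSum_smoothNumbers_prod_primesBelow_geometric
    hnorm (N + 1)).2
  have hpos : ∀ n : ℕ, 0 ≤ ff w u n := by
    intro n
    rw [ff_apply]
    positivity
  have hE2 : HasSum (Set.indicator ((N + 1).smoothNumbers) (fun n => ff w u n))
      (∏ p ∈ (N + 1).primesBelow, (1 - ff w u p)⁻¹) := by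
    rw [← hasSum_subtype_iff_indicator]
    exact hE
  have h1 : ∑ n ∈ Icc 1 N, Set.indicator ((N + 1).smoothNumbers) (fun n => ff w u n) n ≤
      ∏ p ∈ (N + 1).primesBelow, (1 - ff w u p)⁻¹ := by
    apply sum_le_hasSum _ _ hE2
    intro n _
    exact Set.indicator_nonneg (fun m _ => hpos m) n
  have h2 : ∑ n ∈ Icc 1 N, u ^ Om w n / (n : ℝ) =
      ∑ n ∈ Icc 1 N, Set.indicator ((N + 1).smoothNumbers) (fun n => ff w u n) n := by
    apply Finset.sum_congr rfl
    intro n hn
    rw [mem_Icc] at hn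
    rw [Set.indicator_of_mem]
    · rfl
    · rw [Nat.mem_smoothNumbers]
      refine ⟨by omega, ?_⟩
      intro p hp
      have := Nat.le_of_mem_primeFactorsList hp
      omega
  have hset : (N + 1).primesBelow = PN N := by
    ext p
    rw [Nat.mem_primesBelow, PN, mem_filter, mem_Icc]
    constructor
    · rintro ⟨h3, h4⟩
      exact ⟨⟨h4.one_lt.le, by omega⟩, h4⟩
    · rintro ⟨⟨-, h3⟩, h4⟩
      exact ⟨by omega, h4⟩
  have hPp : ∀ p ∈ PN N, p.Prime := by
    intro p hp
    rw [PN, mem_filter] at hp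
    exact hp.2
  have h3 : ∏ p ∈ PN N, (1 - ff w u p)⁻¹ ≤
      Real.exp (∑ p ∈ PN N, (ff w u p + ff w u p ^ 2)) := by
    rw [Real.exp_sum]
    apply Finset.prod_le_prod
    · intro p hp
      have := (hfp p (hPp p hp)).2
      exact inv_nonneg.2 (by linarith)
    · intro p hp
      exact inv_le_exp _ (hfp p (hPp p hp)).1 (hfp p (hPp p hp)).2
  have hle : (PN N).filter (fun p => ¬ w < p) = PN w := by
    ext p
    rw [mem_filter, PN, PN, mem_filter, mem_filter, mem_Icc, mem_Icc]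
    constructor
    · rintro ⟨⟨⟨a1, a2⟩, a3⟩, a4⟩
      exact ⟨⟨a1, by omega⟩, a3⟩
    · rintro ⟨⟨a1, a2⟩, a3⟩
      exact ⟨⟨⟨a1, by omega⟩, a3⟩, by omega⟩
  have h4 : ∑ p ∈ PN N, (ff w u p + ff w u p ^ 2) ≤
      ∑ p ∈ PN w, (1 : ℝ) / p + u * ∑ p ∈ (PN N).filter (fun p => w < p), (1 : ℝ) / p +
      1 + u ^ 2 / w := by
    rw [← Finset.sum_filter_add_sum_filter_not (PN N) (fun p => w < p), hle]
    have e1 : ∑ p ∈ (PN N).filter (fun p => w < p), (ff w u p + ff w u p ^ 2) ≤
        u * ∑ p ∈ (PN N).filter (fun p => w < p), (1 : ℝ) / p + u ^ 2 / w := by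
      have e2 : ∑ p ∈ (PN N).filter (fun p => w < p), (ff w u p + ff w u p ^ 2) =
          u * ∑ p ∈ (PN N).filter (fun p => w < p), (1 : ℝ) / p +
          u ^ 2 * ∑ p ∈ (PN N).filter (fun p => w < p), (1 : ℝ) / (p : ℝ) ^ 2 := by
        rw [Finset.mul_sum, Finset.mul_sum, ← Finset.sum_add_distrib]
        apply Finset.sum_congr rfl
        intro p hp
        rw [mem_filter] at hp
        rw [ff_apply, Om_prime w p (hPp p hp.1)]
        simp only [hp.2, if_true, pow_one]
        ring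
      rw [e2]
      have e3 : ∑ p ∈ (PN N).filter (fun p => w < p), (1 : ℝ) / (p : ℝ) ^ 2 ≤ 1 / (w : ℝ) := by
        refine le_trans ?_ (tail_sq w N (by omega))
        apply Finset.sum_le_sum_of_subset_of_nonneg
        · intro p hp
          rw [mem_filter, PN, mem_filter, mem_Icc] at hp
          rw [mem_Ioc]
          exact ⟨hp.2, hp.1.1.2⟩
        · intro p _ _
          positivity
      have e4 : u ^ 2 / w = u ^ 2 * (1 / (w : ℝ)) := by ring
      rw [e4]
      gcongr
    have e5 : ∑ p ∈ PN w, (ff w u p + ff w u p ^ 2) ≤ ∑ p ∈ PN w, (1 : ℝ) / p + 1 := by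
      have e6 : ∑ p ∈ PN w, (ff w u p + ff w u p ^ 2) =
          ∑ p ∈ PN w, (1 : ℝ) / p + ∑ p ∈ PN w, (1 : ℝ) / (p : ℝ) ^ 2 := by
        rw [← Finset.sum_add_distrib]
        apply Finset.sum_congr rfl
        intro p hp
        rw [PN, mem_filter, mem_Icc] at hp
        have : ¬ w < p := by omega
        rw [ff_apply, Om_prime w p hp.2]
        simp only [this, if_false, pow_zero]
        ring
      rw [e6]
      have e7 : ∑ p ∈ PN w, (1 : ℝ) / (p : ℝ) ^ 2 ≤ 1 := by
        refine le_trans ?_ (le_trans (tail_sq 1 w one_pos) (by norm_num))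
        apply Finset.sum_le_sum_of_subset_of_nonneg
        · intro p hp
          rw [PN, mem_filter, mem_Icc] at hp
          rw [mem_Ioc]
          exact ⟨hp.2.one_lt, hp.1.2⟩
        · intro p _ _
          positivity
      linarith
    linarith
  calc ∑ n ∈ Icc 1 N, u ^ Om w n / (n : ℝ) ≤ ∏ p ∈ (N + 1).primesBelow, (1 - ff w u p)⁻¹ := by
        rw [h2]
        exact h1
    _ ≤ Real.exp (∑ p ∈ PN N, (ff w u p + ff w u p ^ 2)) := by
        rw [hset]
        exact h3
    _ ≤ _ := Real.exp_le_exp.2 h4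

end Pool.Agent.H37.NOK
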